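import Pool.Agent.MVD.StmtsLoc

/-!
# Row LCN of squad MVD: the necessity of the local condition

Suppose that `IA β` and `IAd β` fail.  Then `Hc β` and, by the mirror lemma, `Hc (mir β)`.  `NCB`
gives `CB β` (so all `GF β n`) or `CB (mir β)` (so all `GFd β n`).  `NCE`, `EIN` and `TRE` for `β` and
for `mir β` give `E32 β` and `E32d β`; `TRG` gives `E23 β` or `E23d β`.
-/

namespace Pool.Agent.MVD.H94

open Pool.Agent.MVD Pool.Agent.Helper14_MV Pool.Agent.Helper2_MV

theorem lcn (_hMIR : MirStmt) (hMRL : MrlStmt) (hNCB : NcbStmt) (hNCE : NceStmt) (hGIN : GinStmt)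
    (hEIN : EinStmt) (hTRE : TreStmt) (hTRG : TrgStmt) : LcnStmt := by
  intro β hmd h2 h3 hc
  obtain ⟨hs2, hff, hzz⟩ := hc
  by_cases na : IA β
  · exact Or.inl na
  by_cases nad : IAd β
  · exact Or.inr (Or.inl nad)
  have H : Hc β := ⟨hmd, h2, h3, hs2, hff, hzz, na, nad⟩
  obtain ⟨m1, m2, mHc, mGF, mGFd, mE32, mE32d, mE23, mE23d⟩ := hMRL β
  have H' : Hc (mir β) := mHc H
  -- the dichotomy
  have key : (∀ m, GF β m) ∨ ∀ m, GF (mir β) m := by
    rcases hNCB β H with h | h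
    · exact Or.inl (hGIN β H h)
    · exact Or.inr (hGIN (mir β) H' h)
  have a1 : (∀ m, GF β m) ∨ ∀ m, GFd β m := by
    rcases key with h | h
    · exact Or.inl h
    · exact Or.inr fun m => (mGF m).1 (h m)
  have a2 : (∀ m, GF (mir β) m) ∨ ∀ m, GFd (mir β) m := by
    rcases key with h | h
    · exact Or.inr fun m => (mGFd m).2 (h m)
    · exact Or.inl h
  have e1 : E32 β := hTRE β H.zz (hEIN β H (hNCE β H) a1)
  have e2 : E32 (mir β) := hTRE (mir β) H'.zz (hEIN (mir β) H' (hNCE (mir β) H') a2)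
  have e2' : E32d β := mE32.1 e2
  rcases key with h | h
  · have e3 : E23 β := hTRG β H.s2 h
    exact Or.inr (Or.inr (Or.inr ⟨e2, mE32d.2 e1, mE23d.2 e3⟩))
  · have e3 : E23 (mir β) := hTRG (mir β) H'.s2 h
    exact Or.inr (Or.inr (Or.inl ⟨e1, e2', mE23.1 e3⟩))

end Pool.Agent.MVD.H94
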